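import Mathlib
import Pool.Agent.Helper911_Chev.Bridge2
import Pool.Agent.Helper911_SL.Field

/-!
Q1 for every split, semisimple, simply connected group over `Q_p` and every continuous character.
-/

set_option autoImplicit false

noncomputable section

open Topology Filter Pool.Agent.SplitGroup Pool.Agent.Chev

namespace Pool.Agent.Results.MP_f399a8_nt.SchneiderSplit

/-- Let `G` be the split, semisimple, simply connected group over `Q_p` given by `b` and `V`, `C` a
finite extension of `Q_p` and `χ` a continuous character of the torus `Z` of `G`, with values in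
`C^×`. If `(Ind_B^G χ)^cts` is absolutely reducible, then with the half-sum `ρ` of the positive
roots (`δ^{1/2} = ρ` as an algebraic character) there are a positive root `α`, with coroot `c`,
and an integer `a ≤ 0`, even `a ≤ 1 - ⟨ρ, α^∨⟩`, with `(χ δ^{-1/2})(α^∨(x)) = x^{-1} x^a` for all
`x`. -/
theorem result {p : ℕ} [Fact p.Prime] {I : Type} [Fintype I] [DecidableEq I] {L : Type} [LieRing L]
    [LieAlgebra ℚ_[p] L] {H : LieSubalgebra ℚ_[p] L} (b : LieAlgebra.Basis I H) {ι : Type}
    [Fintype ι] [DecidableEq ι] (V : WeightRep b ι) {C : Type} [NormedField C]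
    [NormedAlgebra ℚ_[p] C] [FiniteDimensional ℚ_[p] C] (χ : (I → ℚ_[p]ˣ) →* Cˣ)
    (hχ : Continuous χ) (hred : AbsReducible V χ) :
    ∃ ρ : I → ℤ, IsHalfSum b.A ρ ∧
      ∃ (α c : I → ℤ) (a : ℤ), RootPair b.A α c ∧ IsPosRoot b.A α ∧ a ≤ 0 ∧
        a ≤ 1 - ∑ k, ρ k * c k ∧ ∀ x : ℚ_[p]ˣ,
        (χ (cochar c x) : Cˣ) * (algebraMap ℚ_[p] C (charVal ρ (cochar c x) : ℚ_[p]ˣ))⁻¹
          = (algebraMap ℚ_[p] C (x : ℚ_[p]))⁻¹ * (algebraMap ℚ_[p] C (x : ℚ_[p])) ^ a := by
  obtain ⟨C', _, _, hfin, hred'⟩ := hred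
  letI : NormedAlgebra ℚ_[p] C' := NormedAlgebra.restrictScalars ℚ_[p] C C'
  haveI : IsScalarTower ℚ_[p] C C' := IsScalarTower.of_algebraMap_eq fun x => rfl
  haveI : FiniteDimensional ℚ_[p] C' := FiniteDimensional.trans ℚ_[p] C C'
  haveI := Helper911.field_ultra p C'
  haveI : CompleteSpace C' := FiniteDimensional.complete ℚ_[p] C'
  obtain ⟨rho, hd⟩ := Helper911.field_disc p C'
  have hcont : Continuous (baseChange C' χ) := by
    have h1 : Continuous (Units.map (algebraMap C C' : C →* C')) :=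
      Continuous.units_map _ (continuous_algebraMap C C')
    exact h1.comp hχ
  obtain ⟨α, c, hp, hpos, hc0, hc1, m, hm⟩ := main_V hd V (baseChange C' χ) hcont hred'
  refine ⟨fun _ => 1, halfSum_one (toChev V), α, c, 1 - ((m : ℤ) + ∑ l, c l), hp, ⟨⟨c, hp⟩, hpos⟩,
    by omega, by simp only [one_mul]; omega, fun x => ?_⟩
  have h1 : algebraMap C C' ((χ (cochar c x) : Cˣ) : C)
      = algebraMap C C' (((algebraMap ℚ_[p] C (x : ℚ_[p])) ^ m)⁻¹) := by
    have h2 : ((baseChange C' χ (cochar c x) : C'ˣ) : C')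
        = ((algebraMap ℚ_[p] C' (x : ℚ_[p])) ^ m)⁻¹ := hm x
    rw [map_inv₀, map_pow]
    exact h2
  have h3 := (algebraMap C C').injective h1
  have hx : (algebraMap ℚ_[p] C (x : ℚ_[p])) ≠ 0 := by
    rw [Ne, map_eq_zero]; exact x.ne_zero
  have h4 : charVal (fun _ => (1 : ℤ)) (cochar c x) = x ^ (∑ l, c l) := by
    unfold charVal cochar
    simp only [zpow_one]
    have : ∀ s : Finset I, ∏ k ∈ s, x ^ c k = x ^ (∑ k ∈ s, c k) := by
      intro s
      induction s using Finset.cons_induction with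
      | empty => simp
      | cons a s ha ih => rw [Finset.prod_cons, Finset.sum_cons, ih, zpow_add]
    exact this _
  rw [h3, h4, Units.val_zpow_eq_zpow_val, map_zpow₀, ← zpow_natCast,
    ← zpow_neg, ← zpow_neg, ← zpow_neg_one, ← zpow_add₀ hx, ← zpow_add₀ hx]
  congr 1
  ring

end Pool.Agent.Results.MP_f399a8_nt.SchneiderSplit
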