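import Mathlib
import Pool.Agent.Helper911_PS.Stmt
import Pool.Agent.Helper911_PS.StmtBridge
import Pool.Agent.Helper911_PS.Bridge
import Pool.Agent.Helper911_PS.Conv

/-!
Smooth characters: the continuous principal series of `SL_n(Q_p)` attached to a smooth character of
the diagonal torus is absolutely reducible if and only if the character is trivial on some simple
coroot. (For `j = i + 1` one has `δ^{1/2}(α^∨(x)) = x`, so triviality on `α^∨` is the condition of
Q1 with `λ_α = 1`.)
-/

set_option autoImplicit false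

noncomputable section

open Topology Filter Pool.Agent.PSeries

namespace Pool.Agent.Results.MP_f399a8_nt.SmoothSLn

theorem smooth_cont {p : ℕ} [Fact p.Prime] {n : ℕ} {C : Type*} [NormedField C]
    (χ : Helper911PS.Torus p n →* Cˣ)
    (hsm : ∃ U ∈ 𝓝 (1 : Helper911PS.Torus p n), ∀ t ∈ U, χ t = 1) : Continuous χ := by
  obtain ⟨U, hU, hU1⟩ := hsm
  refine continuous_of_continuousAt_one χ ?_
  rw [ContinuousAt, map_one]
  exact tendsto_nhds_of_eventually_eq (Filter.mem_of_superset hU fun t ht => hU1 t ht)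

theorem smooth_conv {p : ℕ} [Fact p.Prime] {n : ℕ} {C : Type*} [NormedField C]
    (χ : Torus p n →* Cˣ) (hsm : IsSmooth χ) :
    ∃ U ∈ 𝓝 (1 : Helper911PS.Torus p n), ∀ t ∈ U, conv χ t = 1 := by
  obtain ⟨U, hU, h⟩ := hsm
  refine ⟨fromT p n ⁻¹' U, fromT_continuous.continuousAt.preimage_mem_nhds ?_, fun t ht => h _ ht⟩
  rw [map_one]; exact hU

theorem smooth_pull {p : ℕ} [Fact p.Prime] {n : ℕ} {C : Type*} [NormedField C]
    (χ : Helper911PS.Torus p n →* Cˣ)
    (hsm : ∃ U ∈ 𝓝 (1 : Helper911PS.Torus p n), ∀ t ∈ U, χ t = 1) :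
    ∃ U ∈ 𝓝 (1 : Helper911.SLn p n), ∀ b ∈ Helper911.Up p (1 : Equiv.Perm (Fin n)), b ∈ U →
      Helper911.chiB p (Helper911.pull χ) b = 1 := by
  obtain ⟨U, hU, hU1⟩ := hsm
  have hcont := (Helper911.toT_continuous (p := p) (n := n)).comp
    (Helper911.diagU_continuous (p := p) (n := n))
  have h1 : (Helper911.toT p n) (Helper911.diagU p (1 : Helper911.SLn p n)
      (one_mem (Helper911.Up p (1 : Equiv.Perm (Fin n))))) = 1 := by
    apply Subtype.ext
    funext i
    ext
    show (1 : Helper911.SLn p n) i i = 1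
    simp
  have h2 : (fun b : (Helper911.Up p (1 : Equiv.Perm (Fin n)) : Subgroup (Helper911.SLn p n)) =>
      (Helper911.toT p n) (Helper911.diagU p b.1 b.2)) ⁻¹' U ∈
      𝓝 (⟨1, one_mem _⟩ : (Helper911.Up p (1 : Equiv.Perm (Fin n)) :
        Subgroup (Helper911.SLn p n))) := by
    refine hcont.continuousAt.preimage_mem_nhds ?_
    show U ∈ 𝓝 ((Helper911.toT p n) (Helper911.diagU p (1 : Helper911.SLn p n) _))
    rw [h1]; exact hU
  rw [nhds_subtype_eq_comap, Filter.mem_comap] at h2
  obtain ⟨U', hU', hsub⟩ := h2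
  refine ⟨U', hU', fun b hb hbU => ?_⟩
  rw [Helper911.chiB_eq p _ b hb]
  have h3 : (Helper911.toT p n) (Helper911.diagU p b hb) ∈ U := hsub (a := ⟨b, hb⟩) hbU
  have h4 : (Helper911.pull χ) (Helper911.diagU p b hb) = 1 := hU1 _ h3
  rw [h4, Units.val_one]

/-- Let `C` be a finite extension of `Q_p` and `χ : Z → C^×` a smooth (locally constant) character
of the diagonal torus of `SL_n(Q_p)`. Then `(Ind_B^G χ)^cts` is absolutely reducible if and only if
`χ(α^∨(x)) = 1` for all `x`, for some simple root `α`. -/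
theorem result {p : ℕ} [Fact p.Prime] {n : ℕ} [NeZero n] {C : Type} [NormedField C]
    [NormedAlgebra ℚ_[p] C] [FiniteDimensional ℚ_[p] C] (χ : Torus p n →* Cˣ)
    (hsm : IsSmooth χ) :
    AbsReducible χ ↔
      ∃ (i j : Fin n) (h : i ≠ j), (i : ℕ) + 1 = (j : ℕ) ∧ ∀ x : ℚ_[p]ˣ, χ (coroot i j h x) = 1 := by
  constructor
  · rintro ⟨C', _, _, hfin, V, hV, hV0, hVt⟩
    by_contra hcon
    push Not at hcon
    letI : NormedAlgebra ℚ_[p] C' := NormedAlgebra.restrictScalars ℚ_[p] C C'
    haveI : IsScalarTower ℚ_[p] C C' := IsScalarTower.of_algebraMap_eq fun x => rfl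
    haveI : FiniteDimensional ℚ_[p] C' := FiniteDimensional.trans ℚ_[p] C C'
    haveI := Helper911.field_ultra p C'
    obtain ⟨rho, hd⟩ := Helper911.field_disc p C'
    have hsm0 : IsSmooth (baseChange C' χ) := by
      obtain ⟨U, hU, h⟩ := hsm
      refine ⟨U, hU, fun t ht => ?_⟩
      show Units.map _ (χ t) = 1
      rw [h t ht, map_one]
    have hsm' := smooth_conv _ hsm0
    have hc := smooth_cont _ hsm'
    have hall := Helper911.smooth_irred p hd (Helper911.pull (conv (baseChange C' χ)))
      (Helper911.pull_continuous hc) (smooth_pull _ hsm') (by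
        intro i j h hij
        obtain ⟨x, hx⟩ := hcon i j h hij
        refine ⟨x, fun h1 => hx ?_⟩
        have h2 : Units.map (algebraMap C C' : C →* C') (χ (coroot i j h x)) = 1 := h1
        refine Units.ext ((algebraMap C C').injective ?_)
        have h3 := congrArg Units.val h2
        simpa using h3)
      (Helper911.subRep hc ((subrep_iff _ V).1 hV)) hV0
    refine hVt (le_antisymm hV.1 fun f hf => ?_)
    exact hall f ((Helper911.mem_PS_iff hc f).1 ((ps_iff _ f).1 hf))
  · rintro ⟨i, j, h, hij, hx⟩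
    refine ⟨C, inferInstance, inferInstance, inferInstance, ?_⟩
    have h1 : baseChange C χ = χ := by
      ext t
      rfl
    rw [h1, reducible_iff]
    exact Helper911.reducible_of_simple (conv χ) (smooth_conv χ hsm) i j h hij hx

end Pool.Agent.Results.MP_f399a8_nt.SmoothSLn
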